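import Pool.Agent.Helper68.LM.Geo

/-!
# Project LM, module SD
-/

set_option autoImplicit false

open MeasureTheory Set Filter Topology
open scoped ENNReal RealInnerProductSpace

namespace Pool.Agent.Helper31.LM

open Pool.Agent.Helper68.LM

theorem diff_phi {c : ℝ} {φ : ℝ → ℝ} (h : ContDiffOn ℝ 2 φ (Ioo 0 c)) {t : ℝ}
    (ht : t ∈ Ioo 0 c) : DifferentiableAt ℝ φ t :=
  (h.differentiableOn (by norm_num) t ht).differentiableAt (isOpen_Ioo.mem_nhds ht)

theorem cd_deriv {c : ℝ} {φ : ℝ → ℝ} (h : ContDiffOn ℝ 2 φ (Ioo 0 c)) :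
    ContDiffOn ℝ 1 (deriv φ) (Ioo 0 c) := by
  have h2 : ContDiffOn ℝ (1 + 1) φ (Ioo 0 c) := by
    have : ((1 : WithTop ℕ∞) + 1) = 2 := by norm_num
    rw [this]; exact h
  exact ((contDiffOn_succ_iff_deriv_of_isOpen isOpen_Ioo).1 h2).2.2

theorem diff_phi' {c : ℝ} {φ : ℝ → ℝ} (h : ContDiffOn ℝ 2 φ (Ioo 0 c)) {t : ℝ}
    (ht : t ∈ Ioo 0 c) : DifferentiableAt ℝ (deriv φ) t :=
  ((cd_deriv h).differentiableOn (by norm_num) t ht).differentiableAt (isOpen_Ioo.mem_nhds ht)

/-- a function monotone on `(0,t]` with limit `0` at `0+` is nonnegative -/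
theorem nonneg_of_mono {t : ℝ} (_ht : 0 < t) {h : ℝ → ℝ} (hm : MonotoneOn h (Ioc 0 t))
    (hl : Tendsto h (𝓝[>] 0) (𝓝 0)) {s : ℝ} (hs : s ∈ Ioc 0 t) : 0 ≤ h s := by
  refine le_of_tendsto hl ?_
  filter_upwards [Ioc_mem_nhdsGT hs.1] with r hr
  exact hm ⟨hr.1, hr.2.trans hs.2⟩ hs hr.2

theorem hSD : StSD := by
  intro P u v c φ hS t ht
  obtain ⟨-, -, -, hc, -, h0, hcont, hcd, hlim, hd, hmono⟩ := hS
  have hsub : ∀ {r : ℝ}, r ∈ Ioo 0 c → Ioc 0 r ⊆ Ioo 0 c := fun {r} hr x hx =>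
    ⟨hx.1, hx.2.trans_lt hr.2⟩
  have hstrict : StrictMonoOn (deriv φ) (Ioo 0 c) := by
    refine strictMonoOn_of_deriv_pos (convex_Ioo 0 c) (cd_deriv hcd).continuousOn ?_
    intro x hx
    rw [interior_Ioo] at hx
    exact (hd x hx).2
  have hnn : ∀ s ∈ Ioo 0 c, 0 ≤ deriv φ s := fun s hs =>
    nonneg_of_mono hs.1 (hstrict.monotoneOn.mono (hsub hs)) hlim ⟨hs.1, le_rfl⟩
  have hpos : ∀ s ∈ Ioo 0 c, 0 < deriv φ s := fun s hs => by
    have h2 : s / 2 ∈ Ioo 0 c := ⟨by linarith [hs.1], by linarith [hs.1, hs.2]⟩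
    exact (hnn _ h2).trans_lt (hstrict h2 hs (by linarith [hs.1]))
  have hIcc : Icc 0 t ⊆ Icc 0 c := Icc_subset_Icc le_rfl ht.2.le
  have hIoo : Ioo 0 t ⊆ Ioo 0 c := Ioo_subset_Ioo le_rfl ht.2.le
  refine ⟨?_, hpos t ht, ?_⟩
  · have h1 : StrictMonoOn φ (Icc 0 t) := by
      refine strictMonoOn_of_deriv_pos (convex_Icc 0 t) (hcont.mono hIcc) ?_
      intro x hx
      rw [interior_Icc] at hx
      exact hpos x (hIoo hx)
    have := h1 ⟨le_rfl, ht.1.le⟩ ⟨ht.1.le, le_rfl⟩ ht.1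
    rwa [h0] at this
  · set K := deriv (deriv φ) t with hK
    have hA : ∀ s ∈ Ioc 0 t, 0 ≤ s * K - deriv φ s := by
      intro s hs
      refine nonneg_of_mono (h := fun s => s * K - deriv φ s) ht.1 ?_ ?_ hs
      · refine monotoneOn_of_deriv_nonneg (convex_Ioc 0 t) ?_ ?_ ?_
        · exact (continuousOn_id.mul continuousOn_const).sub
            ((cd_deriv hcd).continuousOn.mono (hsub ht))
        · intro x hx
          rw [interior_Ioc] at hx
          exact ((differentiableAt_id.mul_const K).sub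
            (diff_phi' hcd (hIoo hx))).differentiableWithinAt
        · intro x hx
          rw [interior_Ioc] at hx
          have hx' := hIoo hx
          have h1 : HasDerivAt (fun s => s * K - deriv φ s) (1 * K - deriv (deriv φ) x) x :=
            ((hasDerivAt_id x).mul_const K).sub (diff_phi' hcd hx').hasDerivAt
          rw [h1.deriv]
          have := hmono hx' ht hx.2.le
          linarith
      · have h1 : Tendsto (fun s : ℝ => s * K) (𝓝[>] 0) (𝓝 (0 * K)) :=
          (tendsto_id.mono_left nhdsWithin_le_nhds).mul_const K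
        have := h1.sub hlim
        simpa using this
    have hB : MonotoneOn (fun s => s ^ 2 / 2 * K - φ s) (Icc 0 t) := by
      refine monotoneOn_of_deriv_nonneg (convex_Icc 0 t) ?_ ?_ ?_
      · exact (Continuous.continuousOn (by fun_prop)).sub (hcont.mono hIcc)
      · intro x hx
        rw [interior_Icc] at hx
        exact (DifferentiableAt.sub (by fun_prop)
          (diff_phi hcd (hIoo hx))).differentiableWithinAt
      · intro x hx
        rw [interior_Icc] at hx
        have h1 : HasDerivAt (fun s => s ^ 2 / 2 * K - φ s) (x * K - deriv φ x) x := by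
          have h2 : HasDerivAt (fun s : ℝ => s ^ 2 / 2 * K) (x * K) x := by
            refine (((hasDerivAt_pow 2 x).div_const 2).mul_const K).congr_deriv ?_
            norm_num
          exact h2.sub (diff_phi hcd (hIoo hx)).hasDerivAt
        rw [h1.deriv]
        exact hA x ⟨hx.1, hx.2.le⟩
    have := hB ⟨le_rfl, ht.1.le⟩ ⟨ht.1.le, le_rfl⟩ ht.1.le
    simp only [h0] at this
    linarith

end Pool.Agent.Helper31.LM
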