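import Pool.Agent.Helper68.LM.Geo

/-!
# Project LM, module DY
-/

set_option autoImplicit false

open MeasureTheory Set Filter Topology
open scoped ENNReal RealInnerProductSpace

namespace Pool.Agent.Helper31.LM

open Pool.Agent.Helper68.LM

theorem log_bound {x k q A : ℝ} (hx : 0 < x) (hx1 : x ≤ 1) (hq : 0 < q) (hA : 0 < A)
    (hk : Real.exp (-A * x ^ (-q)) ≤ k) :
    1 + Real.log (1 + 1 / (x * k)) ≤ (2 + A + 1 / q) * x ^ (-q) := by
  have hk0 : 0 < k := (Real.exp_pos _).trans_le hk
  have hX : 1 ≤ x ^ (-q) := by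
    have := Real.one_le_rpow_of_pos_of_le_one_of_nonpos hx hx1 (z := -q) (by linarith)
    exact this
  set y := Real.exp (A * x ^ (-q)) / x with hy
  have hy1 : 1 ≤ y := by
    rw [hy, le_div_iff₀ hx]
    have : 1 ≤ Real.exp (A * x ^ (-q)) := Real.one_le_exp (by positivity)
    linarith
  have h1 : 1 / (x * k) ≤ y := by
    have h2 : x * Real.exp (-A * x ^ (-q)) ≤ x * k := mul_le_mul_of_nonneg_left hk hx.le
    have h3 : 1 / (x * k) ≤ 1 / (x * Real.exp (-A * x ^ (-q))) :=
      one_div_le_one_div_of_le (by positivity) h2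
    refine h3.trans (le_of_eq ?_)
    rw [hy, neg_mul, Real.exp_neg]
    field_simp
  have h4 : Real.log (1 + 1 / (x * k)) ≤ Real.log (2 * y) := by
    refine Real.log_le_log (by positivity) ?_
    linarith
  have h5 : Real.log (2 * y) = Real.log 2 + (A * x ^ (-q) - Real.log x) := by
    rw [Real.log_mul (by norm_num) (by positivity), hy, Real.log_div (Real.exp_pos _).ne' hx.ne',
      Real.log_exp]
  have h6 : -Real.log x ≤ x ^ (-q) / q := by
    have := Real.log_le_rpow_div (x := x⁻¹) (by positivity) hq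
    rwa [Real.log_inv, Real.inv_rpow hx.le, ← Real.rpow_neg hx.le] at this
  have h7 : Real.log 2 ≤ 1 := by
    have := Real.log_two_lt_d9
    linarith
  have h8 : (2 + A + 1 / q) * x ^ (-q) = 2 * x ^ (-q) + A * x ^ (-q) + x ^ (-q) / q := by
    field_simp
  rw [h8]
  linarith

theorem hDY (hSD : StSD) : StDY := by
  intro P u v c q p A φ hS hq hqp hp hA hlow
  have hS' := hS
  obtain ⟨hu, hv, huv, hc, hc1, h0, hcont, hcd, hlim, hd, hmono⟩ := hS
  have hp0 : 0 < p := by linarith
  set x : ℕ → ℝ := fun i => (c / 2) * (1 / 2) ^ i with hx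
  have hxpos : ∀ i, 0 < x i := fun i => by simp only [hx]; positivity
  have hxc : ∀ i, 2 * x i ≤ c := fun i => by
    simp only [hx]
    have : ((1 : ℝ) / 2) ^ i ≤ 1 := pow_le_one₀ (by norm_num) (by norm_num)
    nlinarith
  have hxIoo : ∀ i, x i ∈ Ioo 0 c := fun i => ⟨hxpos i, by linarith [hxc i, hxpos i]⟩
  have hx1 : ∀ i, x i ≤ 1 := fun i => by linarith [(hxIoo i).2]
  have hddpos : ∀ i, 0 < deriv (deriv φ) (x i) := fun i => (hd _ (hxIoo i)).2
  have hklow : ∀ i, Real.exp (-A * (x i) ^ (-q)) ≤ min 1 (deriv (deriv φ) (x i)) := by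
    intro i
    refine le_min ?_ ?_
    · rw [Real.exp_le_one_iff]
      have : 0 < (x i) ^ (-q) := Real.rpow_pos_of_pos (hxpos i) _
      nlinarith
    · have h1 := hlow _ (hxIoo i)
      have h2 := (hSD P u v c φ hS' _ (hxIoo i)).2.2
      have h3 : (x i) ^ 2 / 2 * deriv (deriv φ) (x i) ≤ 1 * deriv (deriv φ) (x i) := by
        refine mul_le_mul_of_nonneg_right ?_ (hddpos i).le
        have := hx1 i
        have := hxpos i
        nlinarith
      linarith
  refine ⟨fun _ => curve P u v φ, x, fun i => 2 * x i,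
    fun i => min 1 (deriv (deriv φ) (x i)), ?_, ?_, ?_⟩
  · intro i
    refine ⟨⟨by linarith [hxpos i], P, u, v, φ, hu, hv, huv, fun t => rfl, ?_, ?_, ?_⟩, ?_,
      min_le_left _ _⟩
    · exact hcont.mono (Icc_subset_Icc (hxpos i).le (hxc i))
    · exact hcd.mono (Ioo_subset_Ioo (hxpos i).le (hxc i))
    · intro t ht
      have ht' : t ∈ Ioo 0 c := Ioo_subset_Ioo (hxpos i).le (hxc i) ht
      exact ⟨(hd t ht').1, (min_le_right _ _).trans (hmono (hxIoo i) ht' ht.1.le)⟩
    · exact lt_min one_pos (hddpos i)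
  · have hsub : curve P u v φ '' Ioo 0 c ⊆ ⋃ i, curve P u v φ '' Icc (x i) (2 * x i) := by
      rintro _ ⟨t, ht, rfl⟩
      have hex : ∃ n : ℕ, c * (1 / 2) ^ n < t := by
        have h1 : Tendsto (fun n : ℕ => c * ((1 : ℝ) / 2) ^ n) atTop (𝓝 (c * 0)) :=
          (tendsto_pow_atTop_nhds_zero_of_lt_one (by norm_num) (by norm_num)).const_mul c
        rw [mul_zero] at h1
        exact (h1.eventually (gt_mem_nhds ht.1)).exists
      classical
      have hn := Nat.find_spec hex
      have hn0 : Nat.find hex ≠ 0 := by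
        intro h
        rw [h, pow_zero, mul_one] at hn
        exact absurd hn (not_lt.2 ht.2.le)
      obtain ⟨m, hm⟩ := Nat.exists_eq_succ_of_ne_zero hn0
      have hm' : ¬ c * (1 / 2) ^ m < t := Nat.find_min hex (by rw [hm]; exact Nat.lt_succ_self m)
      rw [hm, Nat.succ_eq_add_one, pow_succ] at hn
      refine mem_iUnion.2 ⟨m, t, ⟨?_, ?_⟩, rfl⟩
      · simp only [hx]; linarith
      · simp only [hx]
        have := not_lt.1 hm'
        linarith
    rw [sdiff_eq_empty.2 hsub, measure_empty]
  · have hs : 0 < 1 - q / p := by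
      have : q / p < 1 := (div_lt_one hp0).2 hqp
      linarith
    set s := 1 - q / p with hsdef
    set C := (2 + A + 1 / q) with hC
    have hC0 : 0 < C := by positivity
    have hsum : Summable (fun i : ℕ => C ^ (1 / p) * ((c / 2) ^ s * ((1 / 2 : ℝ) ^ s) ^ i)) := by
      refine ((summable_geometric_of_lt_one (by positivity) ?_).mul_left _).mul_left _
      exact Real.rpow_lt_one (by norm_num) (by norm_num) hs
    refine Summable.of_nonneg_of_le (fun i => ?_) (fun i => ?_) hsum
    · have h1 : 0 < 2 * x i - x i := by linarith [hxpos i]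
      have h2 : 0 < min 1 (deriv (deriv φ) (x i)) := lt_min one_pos (hddpos i)
      refine mul_nonneg h1.le (Real.rpow_nonneg ?_ _)
      have : 0 ≤ Real.log (1 + 1 / ((2 * x i - x i) * min 1 (deriv (deriv φ) (x i)))) := by
        apply Real.log_nonneg
        have : 0 < 1 / ((2 * x i - x i) * min 1 (deriv (deriv φ) (x i))) := by positivity
        linarith
      linarith
    · have e1 : 2 * x i - x i = x i := by ring
      simp only [e1]
      have h1 := log_bound (hxpos i) (hx1 i) hq hA (hklow i)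
      have h2 : 0 < min 1 (deriv (deriv φ) (x i)) := lt_min one_pos (hddpos i)
      have h3 : 0 ≤ Real.log (1 + 1 / (x i * min 1 (deriv (deriv φ) (x i)))) := by
        apply Real.log_nonneg
        have : 0 < 1 / (x i * min 1 (deriv (deriv φ) (x i))) := by
          have := hxpos i
          positivity
        linarith
      have h4 : (1 + Real.log (1 + 1 / (x i * min 1 (deriv (deriv φ) (x i))))) ^ (1 / p) ≤
          (C * (x i) ^ (-q)) ^ (1 / p) :=
        Real.rpow_le_rpow (by linarith) h1 (by positivity)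
      refine (mul_le_mul_of_nonneg_left h4 (hxpos i).le).trans (le_of_eq ?_)
      rw [Real.mul_rpow hC0.le (Real.rpow_nonneg (hxpos i).le _), ← Real.rpow_mul (hxpos i).le]
      have h5 : x i * (C ^ (1 / p) * (x i) ^ (-q * (1 / p))) =
          C ^ (1 / p) * ((x i) ^ (1 : ℝ) * (x i) ^ (-q * (1 / p))) := by
        rw [Real.rpow_one]; ring
      rw [h5, ← Real.rpow_add (hxpos i)]
      have h6 : 1 + -q * (1 / p) = s := by rw [hsdef]; ring
      rw [h6]
      simp only [hx]
      rw [Real.mul_rpow (by positivity) (by positivity), Real.rpow_pow_comm (by norm_num)]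

end Pool.Agent.Helper31.LM
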