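import Pool.Agent.Helper68.LM.Geo

/-!
# Project LM, module EX
-/

set_option autoImplicit false

open MeasureTheory Set Filter Topology
open scoped ENNReal RealInnerProductSpace

namespace Pool.Agent.Helper31.LM

open Pool.Agent.Helper68.LM

/-- `exp (-t^(-a))` -/
noncomputable def EE (a t : ℝ) : ℝ := Real.exp (-(t ^ (-a)))

theorem EE_pos (a t : ℝ) : 0 < EE a t := Real.exp_pos _

theorem flatExp_eq {a t : ℝ} (ht : 0 < t) : flatExp a t = EE a t := by
  unfold flatExp EE
  rw [if_neg ht.ne', abs_of_pos ht, Real.rpow_neg ht.le, neg_div, one_div]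

theorem hasDeriv_pE {a p t : ℝ} (ht : 0 < t) :
    HasDerivAt (fun x => x ^ p * EE a x) ((p * t ^ (p - 1) + a * t ^ (p - a - 1)) * EE a t) t := by
  have h1 : HasDerivAt (fun x : ℝ => x ^ p) (p * t ^ (p - 1)) t :=
    Real.hasDerivAt_rpow_const (Or.inl ht.ne')
  have h2 : HasDerivAt (fun x : ℝ => -(x ^ (-a))) (-((-a) * t ^ (-a - 1))) t :=
    (Real.hasDerivAt_rpow_const (Or.inl ht.ne')).neg
  have h3 : HasDerivAt (fun x => EE a x) (EE a t * (-((-a) * t ^ (-a - 1)))) t := h2.exp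
  refine (h1.mul h3).congr_deriv ?_
  have h4 : t ^ (p - a - 1) = t ^ p * t ^ (-a - 1) := by
    rw [← Real.rpow_add ht]; congr 1; ring
  rw [h4]; ring

theorem tendsto_pE {a : ℝ} (ha : 0 < a) (p : ℝ) :
    Tendsto (fun x => x ^ p * EE a x) (𝓝[>] 0) (𝓝 0) := by
  have h1 : Tendsto (fun s : ℝ => s ^ (-p / a) * Real.exp (-1 * s)) atTop (𝓝 0) :=
    tendsto_rpow_mul_exp_neg_mul_atTop_nhds_zero (-p / a) 1 one_pos
  have h2 : Tendsto (fun x : ℝ => x ^ (-a)) (𝓝[>] 0) atTop :=
    tendsto_rpow_neg_nhdsGT_zero (by linarith)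
  refine (h1.comp h2).congr' ?_
  filter_upwards [self_mem_nhdsWithin] with x hx
  have hx : 0 < x := hx
  simp only [Function.comp, EE]
  rw [← Real.rpow_mul hx.le]
  have : -a * (-p / a) = p := by field_simp
  rw [this]
  congr 2
  ring

theorem deriv_flat {a t : ℝ} (ht : 0 < t) :
    deriv (flatExp a) t = a * (t ^ (-a - 1) * EE a t) := by
  have h1 : flatExp a =ᶠ[𝓝 t] fun x => x ^ (0 : ℝ) * EE a x := by
    filter_upwards [lt_mem_nhds ht] with x hx
    rw [flatExp_eq hx, Real.rpow_zero, one_mul]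
  rw [h1.deriv_eq, (hasDeriv_pE ht).deriv]
  have : (0 : ℝ) - a - 1 = -a - 1 := by ring
  rw [this]; ring

theorem hasDeriv_deriv_flat {a t : ℝ} (ht : 0 < t) :
    HasDerivAt (deriv (flatExp a))
      (a * (((-a - 1) * t ^ (-a - 2) + a * t ^ (-2 * a - 2)) * EE a t)) t := by
  have h1 : (fun x => a * (x ^ (-a - 1) * EE a x)) =ᶠ[𝓝 t] deriv (flatExp a) := by
    filter_upwards [lt_mem_nhds ht] with x hx
    rw [deriv_flat hx]
  refine (((hasDeriv_pE (a := a) (p := -a - 1) ht).const_mul a).congr_of_eventuallyEq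
    h1.symm).congr_deriv ?_
  have h2 : -a - 1 - 1 = -a - 2 := by ring
  have h3 : -a - 1 - a - 1 = -2 * a - 2 := by ring
  rw [h2, h3]

theorem dd_flat {a t : ℝ} (ht : 0 < t) : deriv (deriv (flatExp a)) t =
    a * ((-a - 1) * (t ^ (-a - 2) * EE a t) + a * (t ^ (-2 * a - 2) * EE a t)) := by
  rw [(hasDeriv_deriv_flat ht).deriv]; ring

theorem hasDeriv_dd_flat {a t : ℝ} (ht : 0 < t) :
    HasDerivAt (deriv (deriv (flatExp a)))
      (a * ((-a - 1) * (((-a - 2) * t ^ (-a - 2 - 1) + a * t ^ (-a - 2 - a - 1)) * EE a t) +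
        a * (((-2 * a - 2) * t ^ (-2 * a - 2 - 1) + a * t ^ (-2 * a - 2 - a - 1)) * EE a t))) t := by
  have h1 : (fun x => a * ((-a - 1) * (x ^ (-a - 2) * EE a x) + a * (x ^ (-2 * a - 2) * EE a x)))
      =ᶠ[𝓝 t] deriv (deriv (flatExp a)) := by
    filter_upwards [lt_mem_nhds ht] with x hx
    rw [dd_flat hx]
  exact ((((hasDeriv_pE (a := a) (p := -a - 2) ht).const_mul (-a - 1)).add
    ((hasDeriv_pE (a := a) (p := -2 * a - 2) ht).const_mul a)).const_mul
      a).congr_of_eventuallyEq h1.symm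

theorem hEX : StEX := by
  intro a ha ε hε
  -- the bound of the first derivative
  have hl : Tendsto (deriv (flatExp a)) (𝓝[>] 0) (𝓝 0) := by
    have h1 := (tendsto_pE ha (-a - 1)).const_mul a
    rw [mul_zero] at h1
    refine h1.congr' ?_
    filter_upwards [self_mem_nhdsWithin] with x hx
    rw [deriv_flat hx]
  have h1 : ∀ᶠ t in 𝓝[>] (0 : ℝ), |deriv (flatExp a) t| ≤ 1 := by
    have := (hl.abs).eventually (gt_mem_nhds (b := |(0 : ℝ)|) (a := 1) (by simp))
    filter_upwards [this] with t ht using ht.le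
  have h2 : ∀ᶠ t in 𝓝[>] (0 : ℝ), 3 * (a + 1) / a < t ^ (-a) :=
    (tendsto_rpow_neg_nhdsGT_zero (by linarith)).eventually (eventually_gt_atTop _)
  obtain ⟨c₀, hc₀, hc⟩ := mem_nhdsGT_iff_exists_Ioo_subset.1 (h1.and h2)
  have hc₀ : (0 : ℝ) < c₀ := hc₀
  refine ⟨min (min c₀ 1) (ε / 2), by positivity, ?_, ?_⟩
  · exact (min_le_right _ _).trans_lt (by linarith)
  intro P u v hu hv huv
  set c := min (min c₀ 1) (ε / 2) with hcdef
  have hcpos : 0 < c := by rw [hcdef]; positivity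
  have hcc : Ioo 0 c ⊆ Ioo 0 c₀ :=
    Ioo_subset_Ioo le_rfl ((min_le_left _ _).trans (min_le_left _ _))
  have hK : ∀ t ∈ Ioo 0 c, 3 * (a + 1) ≤ a * t ^ (-a) := by
    intro t ht
    have := (hc (hcc ht)).2
    rw [div_lt_iff₀ ha] at this
    linarith
  refine ⟨hu, hv, huv, hcpos, (min_le_left _ _).trans (min_le_right _ _), by simp [flatExp],
    ?_, ?_, hl, ?_, ?_⟩
  · intro t ht
    rcases ht.1.eq_or_lt with h0 | h0
    · subst h0
      have h3 : Tendsto (flatExp a) (𝓝[>] 0) (𝓝 (flatExp a 0)) := by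
        have : flatExp a 0 = 0 := by simp [flatExp]
        rw [this]
        refine (tendsto_pE ha 0).congr' ?_
        filter_upwards [self_mem_nhdsWithin] with x hx
        rw [flatExp_eq hx, Real.rpow_zero, one_mul]
      have h4 : ContinuousWithinAt (flatExp a) (Ioi 0) 0 := h3
      have h5 : ContinuousWithinAt (flatExp a) (Ici 0) 0 := by
        rw [← continuousWithinAt_Ioi_iff_Ici]; exact h4
      exact h5.mono Icc_subset_Ici_self
    · have h3 : (fun x => x ^ (0 : ℝ) * EE a x) =ᶠ[𝓝 t] flatExp a := by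
        filter_upwards [lt_mem_nhds h0] with x hx
        rw [flatExp_eq hx, Real.rpow_zero, one_mul]
      exact (((hasDeriv_pE h0).continuousAt).congr h3).continuousWithinAt
  · intro t ht
    have h3 : flatExp a =ᶠ[𝓝 t] fun x => Real.exp (-(x ^ (-a))) := by
      filter_upwards [lt_mem_nhds ht.1] with x hx
      rw [flatExp_eq hx, EE]
    have h4 : ContDiffAt ℝ 2 (fun x : ℝ => Real.exp (-(x ^ (-a)))) t :=
      ((Real.contDiffAt_rpow_const_of_ne ht.1.ne').neg).exp
    exact (h4.congr_of_eventuallyEq h3).contDiffWithinAt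
  · intro t ht
    refine ⟨(hc (hcc ht)).1, ?_⟩
    rw [dd_flat ht.1]
    have h3 : t ^ (-2 * a - 2) = t ^ (-a) * t ^ (-a - 2) := by
      rw [← Real.rpow_add ht.1]; congr 1; ring
    rw [h3]
    have h4 : 0 < t ^ (-a - 2) := Real.rpow_pos_of_pos ht.1 _
    have h5 := EE_pos a t
    have h6 := hK t ht
    have h7 : (-a - 1) * (t ^ (-a - 2) * EE a t) + a * (t ^ (-a) * t ^ (-a - 2) * EE a t) =
      (a * t ^ (-a) - (a + 1)) * (t ^ (-a - 2) * EE a t) := by ring
    rw [h7]
    have : 0 < a * t ^ (-a) - (a + 1) := by linarith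
    positivity
  · refine monotoneOn_of_deriv_nonneg (convex_Ioo 0 c) ?_ ?_ ?_
    · intro t ht
      exact (hasDeriv_dd_flat ht.1).continuousAt.continuousWithinAt
    · intro t ht
      rw [interior_Ioo] at ht
      exact (hasDeriv_dd_flat ht.1).differentiableAt.differentiableWithinAt
    · intro t ht
      rw [interior_Ioo] at ht
      rw [(hasDeriv_dd_flat ht.1).deriv]
      have e1 : t ^ (-a - 2 - a - 1) = t ^ (-a) * t ^ (-a - 2 - 1) := by
        rw [← Real.rpow_add ht.1]; congr 1; ring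
      have e2 : t ^ (-2 * a - 2 - 1) = t ^ (-a) * t ^ (-a - 2 - 1) := by
        rw [← Real.rpow_add ht.1]; congr 1; ring
      have e3 : t ^ (-2 * a - 2 - a - 1) = t ^ (-a) * t ^ (-a) * t ^ (-a - 2 - 1) := by
        rw [← Real.rpow_add ht.1, ← Real.rpow_add ht.1]; congr 1; ring
      rw [e1, e2, e3]
      have h4 : 0 < t ^ (-a - 2 - 1) := Real.rpow_pos_of_pos ht.1 _
      have h5 := EE_pos a t
      have h6 := hK t ht
      have hs : 0 < t ^ (-a) := Real.rpow_pos_of_pos ht.1 _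
      set s := t ^ (-a)
      set w := t ^ (-a - 2 - 1)
      set e := EE a t
      have h7 : a * ((-a - 1) * (((-a - 2) * w + a * (s * w)) * e) +
          a * (((-2 * a - 2) * (s * w) + a * (s * s * w)) * e)) =
          a * ((a + 1) * (a + 2) + a * s * (a * s - 3 * (a + 1))) * (w * e) := by ring
      rw [h7]
      have h8 : 0 ≤ a * s - 3 * (a + 1) := by linarith
      positivity

end Pool.Agent.Helper31.LM
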